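import Mathlib

/-!
# MP_48b99b_co: every positive integer is the number of irreducible FAT colourings

For every `b ≥ 1` there is a finite connected simple graph with at least two vertices which has
exactly `b` irreducible FAT colourings (up to automorphisms). For `b = 1` it is an edge. For
`b = m + 2` it is the bipartite graph `A - Y₁ - B - Y₂ - C` obtained from a path with five vertices by
replacing the vertices of the large side by independent sets `A`, `B`, `C` of size `2 m + 1` and those
of the small side by independent sets `Y₁`, `Y₂` of size two. Besides the constant colouring and the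
proper 2-colouring its FAT colourings are the 2-colourings in which every vertex sees both colours
equally often, and these are classified by the way in which they split `B`.
-/

set_option autoImplicit false

namespace Pool.Agent.Results.MP_48b99b_co.EveryCount

open Finset

/-- `c` is a FAT `k`-colouring of `G` with parameter `α ∈ [0, 1]`: every vertex `v` has exactly
`α * deg v` neighbours in each class other than its own, and exactly `β * deg v` neighbours in its
own class, where `β = 1 - (k - 1) * α`. -/
def IsFAT {V : Type} (G : SimpleGraph V) (k : ℕ) (c : V → Fin k) (α : ℝ) : Prop :=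
  0 ≤ α ∧ α ≤ 1 ∧
  (∀ (v : V) (i : Fin k), c v ≠ i →
    ({u | G.Adj v u ∧ c u = i}.ncard : ℝ) = α * ({u | G.Adj v u}.ncard : ℝ)) ∧
  ∀ v : V, ({u | G.Adj v u ∧ c u = c v}.ncard : ℝ) =
    (1 - ((k : ℝ) - 1) * α) * ({u | G.Adj v u}.ncard : ℝ)

/-- The partition of the vertices with the equivalence relation `r` is the partition into the
nonempty colour classes of some FAT colouring. -/
def FATPartition {V : Type} (G : SimpleGraph V) (r : Setoid V) : Prop :=
  ∃ (k : ℕ) (c : V → Fin k) (α : ℝ), IsFAT G k c α ∧ ∀ x y, r x y ↔ c x = c y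

/-- The FAT partition `r` is irreducible: there is no strictly finer FAT partition. -/
def Irreducible {V : Type} (G : SimpleGraph V) (r : Setoid V) : Prop :=
  FATPartition G r ∧ ∀ r' : Setoid V, FATPartition G r' → (∀ x y, r' x y → r x y) → r' = r

/-- Two irreducible FAT partitions are equivalent if an automorphism of the graph maps one onto the
other. -/
def autSetoid {V : Type} (G : SimpleGraph V) : Setoid {r : Setoid V // Irreducible G r} where
  r p q := ∃ φ : G ≃g G, ∀ x y, p.1 x y ↔ q.1 (φ x) (φ y)
  iseqv :=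
    { refl := fun _ => ⟨RelIso.refl _, fun _ _ => Iff.rfl⟩
      symm := by
        rintro p q ⟨φ, h⟩
        refine ⟨φ.symm, fun x y => ?_⟩
        rw [h (φ.symm x) (φ.symm y), RelIso.apply_symm_apply, RelIso.apply_symm_apply]
      trans := by
        rintro p q s ⟨φ, h⟩ ⟨ψ, h'⟩
        exact ⟨φ.trans ψ, fun x y => (h x y).trans (h' _ _)⟩ }

/-- The number of irreducible FAT colourings of `G`: the number of orbits of the automorphism group
on the irreducible FAT partitions. -/
noncomputable def irreducibleCount {V : Type} (G : SimpleGraph V) : ℕ :=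
  Nat.card (Quotient (autSetoid G))

/-! ### The graph -/

/-- `i = 0, 1, 2` stands for `A`, `B`, `C` and `j = false, true` for `Y₁`, `Y₂`. -/
def adjb (i : Fin 3) (j : Bool) : Bool := if i = 0 then !j else if i = 1 then true else j

/-- The vertices. -/
abbrev W (n : ℕ) := (Fin 3 × Fin n) ⊕ (Bool × Bool)

/-- The adjacency. -/
def adjW {n : ℕ} : W n → W n → Bool
  | .inl (i, _), .inr (j, _) => adjb i j
  | .inr (j, _), .inl (i, _) => adjb i j
  | _, _ => false

/-- The graph. -/
def G (n : ℕ) : SimpleGraph (W n) where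
  Adj u v := adjW u v = true
  symm := ⟨by
    rintro (⟨i, a⟩ | ⟨j, y⟩) (⟨i', a'⟩ | ⟨j', y'⟩) h
    · simp [adjW] at h
    · exact h
    · exact h
    · simp [adjW] at h⟩
  loopless := ⟨by rintro (⟨i, a⟩ | ⟨j, y⟩) h <;> simp [adjW] at h⟩

variable {n : ℕ}

theorem adj_lr (i : Fin 3) (a : Fin n) (j y : Bool) :
    (G n).Adj (.inl (i, a)) (.inr (j, y)) ↔ adjb i j = true := Iff.rfl

theorem adj_rl (i : Fin 3) (a : Fin n) (j y : Bool) :
    (G n).Adj (.inr (j, y)) (.inl (i, a)) ↔ adjb i j = true := Iff.rfl

theorem not_adj_ll (p q : Fin 3 × Fin n) : ¬ (G n).Adj (.inl p) (.inl q) := by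
  intro h; exact absurd h (by simp [G, adjW])

theorem not_adj_rr (p q : Bool × Bool) : ¬ (G n).Adj (.inr p) (.inr q) := by
  intro h; exact absurd h (by simp [G, adjW])

theorem ncard_l (P : W n → Prop) [DecidablePred P] (i : Fin 3) (a : Fin n) :
    {u | (G n).Adj (.inl (i, a)) u ∧ P u}.ncard =
      (univ.filter fun p : Bool × Bool => adjb i p.1 = true ∧ P (.inr p)).card := by
  have h : {u | (G n).Adj (.inl (i, a)) u ∧ P u} =
      Sum.inr '' ((univ.filter fun p : Bool × Bool => adjb i p.1 = true ∧ P (.inr p) :
        Finset (Bool × Bool)) : Set (Bool × Bool)) := by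
    ext u
    constructor
    · rintro ⟨h1, h2⟩
      rcases u with p | p
      · exact absurd h1 (not_adj_ll _ _)
      · exact ⟨p, by simpa using ⟨h1, h2⟩, rfl⟩
    · rintro ⟨p, hp, rfl⟩
      rw [Finset.mem_coe, Finset.mem_filter] at hp
      exact ⟨hp.2.1, hp.2.2⟩
  rw [h, Set.ncard_image_of_injective _ Sum.inr_injective, Set.ncard_coe_finset]

theorem ncard_r (P : W n → Prop) [DecidablePred P] (j y : Bool) :
    {u | (G n).Adj (.inr (j, y)) u ∧ P u}.ncard =
      (univ.filter fun p : Fin 3 × Fin n => adjb p.1 j = true ∧ P (.inl p)).card := by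
  have h : {u | (G n).Adj (.inr (j, y)) u ∧ P u} =
      Sum.inl '' ((univ.filter fun p : Fin 3 × Fin n => adjb p.1 j = true ∧ P (.inl p) :
        Finset (Fin 3 × Fin n)) : Set (Fin 3 × Fin n)) := by
    ext u
    constructor
    · rintro ⟨h1, h2⟩
      rcases u with p | p
      · exact ⟨p, by simpa using ⟨h1, h2⟩, rfl⟩
      · exact absurd h1 (not_adj_rr _ _)
    · rintro ⟨p, hp, rfl⟩
      rw [Finset.mem_coe, Finset.mem_filter] at hp
      exact ⟨hp.2.1, hp.2.2⟩
  rw [h, Set.ncard_image_of_injective _ Sum.inl_injective, Set.ncard_coe_finset]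

theorem deg_l (i : Fin 3) (a : Fin n) : {u | (G n).Adj (.inl (i, a)) u}.ncard =
    (univ.filter fun p : Bool × Bool => adjb i p.1 = true).card := by
  have h := ncard_l (fun _ => True) i a
  simpa using h

theorem deg_A (a : Fin n) : {u | (G n).Adj (.inl (0, a)) u}.ncard = 2 := by
  rw [deg_l]; decide

theorem deg_B (a : Fin n) : {u | (G n).Adj (.inl (1, a)) u}.ncard = 4 := by
  rw [deg_l]; decide

theorem deg_C (a : Fin n) : {u | (G n).Adj (.inl (2, a)) u}.ncard = 2 := by
  rw [deg_l]; decide

/-- The number of vertices `a` of the block `i` with `P a`. -/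
def cnt (P : W n → Prop) [DecidablePred P] (i : Fin 3) : ℕ :=
  (univ.filter fun a : Fin n => P (.inl (i, a))).card

theorem ncard_r' (P : W n → Prop) [DecidablePred P] (j y : Bool) :
    {u | (G n).Adj (.inr (j, y)) u ∧ P u}.ncard =
      cnt P 1 + cnt P (if j = true then 2 else 0) := by
  rw [ncard_r, card_filter, Fintype.sum_prod_type, Fin.sum_univ_three]
  unfold cnt
  rw [card_filter, card_filter]
  cases j
  · simp only [adjb, if_true, Bool.not_false, true_and, one_ne_zero, if_false,
      Bool.false_eq_true, Fin.isValue, Fin.reduceEq, false_and, Finset.sum_const_zero, add_zero]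
    rw [add_comm]
  · simp only [adjb, if_true, Bool.not_true, true_and, one_ne_zero, if_false,
      Bool.false_eq_true, Fin.isValue, Fin.reduceEq, false_and, Finset.sum_const_zero, zero_add]

theorem deg_r (j y : Bool) : {u | (G n).Adj (.inr (j, y)) u}.ncard = 2 * n := by
  have h := ncard_r' (n := n) (fun _ => True) j y
  have h1 : ∀ i, cnt (n := n) (fun _ => True) i = n := fun i => by simp [cnt]
  rw [h1, h1] at h
  simp only [and_true] at h
  rw [h]; ring

/-! ### Balanced 2-colourings -/

/-- Every vertex sees both colours equally often. -/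
structure Balanced (f : W n → Bool) : Prop where
  y : ∀ j, f (.inr (j, false)) ≠ f (.inr (j, true))
  a : cnt (fun u => f u = true) 0 + cnt (fun u => f u = true) 1 = n
  c : cnt (fun u => f u = true) 1 + cnt (fun u => f u = true) 2 = n

theorem cnt_not (f : W n → Bool) (i : Fin 3) :
    cnt (fun u => f u = true) i + cnt (fun u => f u = false) i = n := by
  unfold cnt
  have h := Finset.card_filter_add_card_filter_not (s := (univ : Finset (Fin n)))
    (fun a : Fin n => f (.inl (i, a)) = true)
  simpa using h

theorem Balanced.half {f : W n → Bool} (hf : Balanced f) (v : W n) (b : Bool) :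
    2 * {u | (G n).Adj v u ∧ f u = b}.ncard = {u | (G n).Adj v u}.ncard := by
  rcases v with ⟨i, a⟩ | ⟨j, y⟩
  · rw [ncard_l, deg_l, card_filter, card_filter, Fintype.sum_prod_type, Fintype.sum_prod_type]
    have h0 := hf.y false
    have h1 := hf.y true
    fin_cases i <;> simp only [Fintype.sum_bool, adjb] <;>
      cases b <;> revert h0 h1 <;>
      cases f (.inr (false, false)) <;> cases f (.inr (false, true)) <;>
      cases f (.inr (true, false)) <;> cases f (.inr (true, true)) <;> simp
  · rw [ncard_r', deg_r]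
    have h0 := cnt_not f 0
    have h1 := cnt_not f 1
    have h2 := cnt_not f 2
    have ha := hf.a
    have hc := hf.c
    cases b <;> cases j <;> simp only [if_true, Bool.false_eq_true, if_false] <;> omega

/-- The partition of a map to `Bool`. -/
def ker (f : W n → Bool) : Setoid (W n) := Setoid.ker f

theorem ker_iff (f : W n → Bool) (x y : W n) : ker f x y ↔ f x = f y := Iff.rfl

theorem two_col (f : W n → Bool) (x y : W n) :
    f x = f y ↔ (if f x = true then (1 : Fin 2) else 0) = if f y = true then (1 : Fin 2) else 0 := by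
  cases f x <;> cases f y <;> simp

theorem fat_of_half (f : W n → Bool) (h : ∀ (v : W n) (b : Bool),
    2 * {u | (G n).Adj v u ∧ f u = b}.ncard = {u | (G n).Adj v u}.ncard) :
    FATPartition (G n) (ker f) := by
  refine ⟨2, fun u => if f u = true then 1 else 0, 1 / 2, ⟨by norm_num, by norm_num, ?_, ?_⟩,
    fun x y => two_col f x y⟩
  all_goals
    have key : ∀ (v : W n) (i : Fin 2),
        ({u | (G n).Adj v u ∧ (if f u = true then (1 : Fin 2) else 0) = i}.ncard : ℝ) =
          1 / 2 * ({u | (G n).Adj v u}.ncard : ℝ) := by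
      intro v i
      have h1 : {u | (G n).Adj v u ∧ (if f u = true then (1 : Fin 2) else 0) = i} =
          {u | (G n).Adj v u ∧ f u = (i == 1)} := by
        ext u
        simp only [Set.mem_ofPred_eq]
        refine and_congr_right fun _ => ?_
        cases f u <;> fin_cases i <;> simp
      rw [h1, ← h v (i == 1)]
      push_cast; ring
  · intro v i _
    exact key v i
  · intro v
    have h2 := key v (if f v = true then 1 else 0)
    rw [h2]; norm_num

/-- The two sides of the bipartite graph. -/
def side : W n → Bool := fun u => u.isLeft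

theorem adj_side {u v : W n} (h : (G n).Adj u v) : side v = !side u := by
  rcases u with ⟨i, a⟩ | ⟨j, y⟩ <;> rcases v with ⟨i', a'⟩ | ⟨j', y'⟩
  · exact absurd h (not_adj_ll _ _)
  · rfl
  · rfl
  · exact absurd h (not_adj_rr _ _)

theorem fat_side : FATPartition (G n) (ker side) := by
  refine ⟨2, fun u => if side u = true then 1 else 0, 1, ⟨by norm_num, by norm_num, ?_, ?_⟩,
    fun x y => two_col side x y⟩
  · intro v i hi
    have h1 : {u | (G n).Adj v u ∧ (if side u = true then (1 : Fin 2) else 0) = i} =
        {u | (G n).Adj v u} := by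
      ext u
      simp only [Set.mem_ofPred_eq]
      refine ⟨fun h => h.1, fun h => ⟨h, ?_⟩⟩
      rw [adj_side h]
      have hi' : (if side v = true then (1 : Fin 2) else 0) ≠ i := hi
      revert hi'
      cases side v <;> fin_cases i <;> simp
    rw [h1, one_mul]
  · intro v
    have h1 : {u | (G n).Adj v u ∧ (if side u = true then (1 : Fin 2) else 0) =
        if side v = true then (1 : Fin 2) else 0} = ∅ := by
      ext u
      simp only [Set.mem_ofPred_eq, Set.mem_empty_iff_false, iff_false, not_and]
      intro h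
      rw [adj_side h]
      cases side v <;> simp
    rw [h1]; norm_num

/-! ### Classification of the FAT colourings -/

variable {k : ℕ}

theorem cnt_A (c : W n → Fin k) (a : Fin n) (i : Fin k) :
    {u | (G n).Adj (.inl (0, a)) u ∧ c u = i}.ncard =
      (if c (.inr (false, false)) = i then 1 else 0) +
        (if c (.inr (false, true)) = i then 1 else 0) := by
  rw [ncard_l, card_filter, Fintype.sum_prod_type, Fintype.sum_bool, Fintype.sum_bool,
    Fintype.sum_bool]
  simp [adjb, add_comm]

theorem cnt_C (c : W n → Fin k) (a : Fin n) (i : Fin k) :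
    {u | (G n).Adj (.inl (2, a)) u ∧ c u = i}.ncard =
      (if c (.inr (true, false)) = i then 1 else 0) +
        (if c (.inr (true, true)) = i then 1 else 0) := by
  rw [ncard_l, card_filter, Fintype.sum_prod_type, Fintype.sum_bool, Fintype.sum_bool,
    Fintype.sum_bool]
  simp [adjb, add_comm]

theorem ncard_pos_of (P : W n → Prop) (v u : W n) (h : (G n).Adj v u) (hu : P u) :
    0 < {u | (G n).Adj v u ∧ P u}.ncard :=
  (Set.ncard_pos (Set.toFinite _)).2 ⟨u, h, hu⟩

theorem reach {f : W n → Prop} (z : Fin n) (h0 : f (.inl (1, z)))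
    (h : ∀ u v, (G n).Adj u v → f u → f v) : ∀ v, f v := by
  have hY : ∀ j y, f (.inr (j, y)) := fun j y => h _ _ (by rw [adj_lr]; cases j <;> rfl) h0
  rintro (⟨i, a⟩ | ⟨j, y⟩)
  · fin_cases i
    · exact h _ _ (by rw [adj_rl]; rfl) (hY false false)
    · exact h _ _ (by rw [adj_rl]; rfl) (hY false false)
    · exact h _ _ (by rw [adj_rl]; rfl) (hY true false)
  · exact hY j y

theorem classify (hn : 0 < n) {c : W n → Fin k} {α : ℝ} (h : IsFAT (G n) k c α) :
    (∀ x y, c x = c y) ∨ (∀ x y, c x = c y ↔ side x = side y) ∨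
      ∃ f : W n → Bool, Balanced f ∧ ∀ x y, c x = c y ↔ f x = f y := by
  obtain ⟨h0, h1, ho, hw⟩ := h
  let z : Fin n := ⟨0, hn⟩
  have hoA := ho (.inl (0, z))
  have hwA := hw (.inl (0, z))
  rw [cnt_A, deg_A] at hwA
  by_cases hpq : c (.inr (false, false)) = c (.inr (false, true))
  · by_cases hp : c (.inr (false, true)) = c (.inl (0, z))
    · -- the constant colouring
      left
      rw [hpq, if_pos hp] at hwA
      have hk : ((k : ℝ) - 1) * α = 0 := by push_cast at hwA; linarith
      have hsame : ∀ u v, (G n).Adj u v → c u = c v := by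
        intro u v huv
        by_contra hne
        have h2 := ho u (c v) hne
        have h3 := ncard_pos_of (fun w => c w = c v) u v huv rfl
        have hk2 : 2 ≤ k := by
          have h4 := (c u).2
          have h5 := (c v).2
          have h6 : (c u : ℕ) ≠ (c v : ℕ) := fun h => hne (Fin.ext h)
          omega
        have hα : α = 0 := by
          rcases mul_eq_zero.1 hk with h7 | h7
          · have h8 : (2 : ℝ) ≤ k := by exact_mod_cast hk2
            linarith
          · exact h7
        rw [hα, zero_mul] at h2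
        have h9 : (0 : ℝ) < ({w | (G n).Adj u w ∧ c w = c v}.ncard : ℝ) := by exact_mod_cast h3
        linarith
      have hall : ∀ v, c v = c (.inl (1, z)) :=
        reach (f := fun v => c v = c (.inl (1, z))) z rfl fun u v huv hu => (hsame u v huv) ▸ hu
      exact fun x y => (hall x).trans (hall y).symm
    · -- the proper 2-colouring
      right; left
      have h2 := hoA (c (.inr (false, true))) (fun h => hp h.symm)
      rw [cnt_A, deg_A, hpq, if_pos rfl] at h2
      rw [hpq, if_neg hp] at hwA
      push_cast at h2 hwA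
      have hα : α = 1 := by linarith
      have hk : (k : ℝ) = 2 := by rw [hα] at hwA; linarith
      have hk2 : k = 2 := by exact_mod_cast hk
      subst hk2
      have hne : ∀ u v, (G n).Adj u v → c u ≠ c v := by
        intro u v huv hcc
        have h3 := hw u
        have h4 := ncard_pos_of (fun w => c w = c u) u v huv hcc.symm
        rw [hα] at h3
        have h9 : (0 : ℝ) < ({w | (G n).Adj u w ∧ c w = c u}.ncard : ℝ) := by exact_mod_cast h4
        rw [h3] at h9
        norm_num at h9
      have hall : ∀ v, (c v = c (.inl (1, z)) ↔ side v = side (.inl (1, z) : W n)) := by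
        refine reach (f := fun v => (c v = c (.inl (1, z)) ↔ side v = side (.inl (1, z) : W n)))
          z (by simp) fun u v huv hu => ?_
        have h5 := hne u v huv
        have h6 := adj_side huv
        rw [h6]
        generalize side (.inl (1, z) : W n) = s at *
        generalize c (.inl (1, z)) = t at *
        have h7 : ∀ a b t : Fin 2, a ≠ b → ((b = t) ↔ ¬ (a = t)) := by decide
        rw [h7 _ _ t h5, hu]
        cases side u <;> cases s <;> simp
      intro x y
      have hx := hall x
      have hy := hall y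
      have h7 : ∀ a b t : Fin 2, (a = b) ↔ ((a = t) ↔ (b = t)) := by decide
      rw [h7 _ _ (c (.inl (1, z))), hx, hy]
      cases side x <;> cases side y <;> cases side (.inl (1, z) : W n) <;> simp
  · -- the balanced colourings
    right; right
    have hcase : c (.inr (false, false)) = c (.inl (0, z)) ∨
        c (.inr (false, true)) = c (.inl (0, z)) ∨
        (c (.inr (false, false)) ≠ c (.inl (0, z)) ∧ c (.inr (false, true)) ≠ c (.inl (0, z))) := by
      tauto
    have hα : α = 1 / 2 := by
      rcases hcase with h2 | h2 | ⟨h2, _⟩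
      · have h3 := hoA (c (.inr (false, true))) (fun h => hpq (h2.trans h))
        rw [cnt_A, deg_A, if_neg hpq, if_pos rfl] at h3
        push_cast at h3; linarith
      · have h3 := hoA (c (.inr (false, false))) (fun h => hpq (h2.trans h).symm)
        rw [cnt_A, deg_A, if_pos rfl, if_neg (fun h => hpq h.symm)] at h3
        push_cast at h3; linarith
      · have h3 := hoA (c (.inr (false, false))) (fun h => h2 h.symm)
        rw [cnt_A, deg_A, if_pos rfl, if_neg (fun h => hpq h.symm)] at h3
        push_cast at h3; linarith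
    have hk : (k : ℝ) = 2 := by
      rcases hcase with h2 | h2 | ⟨h2, h2'⟩
      · rw [if_pos h2, if_neg (fun h => hpq (h2.trans h.symm)), hα] at hwA
        push_cast at hwA; linarith
      · rw [if_pos h2, if_neg (fun h => hpq (h.trans h2.symm)), hα] at hwA
        push_cast at hwA; linarith
      · exfalso
        rw [if_neg h2, if_neg h2'] at hwA
        push_cast at hwA
        have hβ : 1 - ((k : ℝ) - 1) * α = 0 := by linarith
        have h3 := ho (.inr (false, false)) (c (.inr (false, true))) hpq
        rw [deg_r, hα] at h3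
        have h4 : (0 : ℝ) < ({u | (G n).Adj (.inr (false, false)) u ∧
            c u = c (.inr (false, true))}.ncard : ℝ) := by
          rw [h3]; push_cast
          have : (0 : ℝ) < n := by exact_mod_cast hn
          linarith
        have h5 : 0 < {u | (G n).Adj (.inr (false, false)) u ∧
            c u = c (.inr (false, true))}.ncard := by exact_mod_cast h4
        obtain ⟨u, hu1, hu2⟩ := (Set.ncard_pos (Set.toFinite _)).1 h5
        rcases u with ⟨i, a⟩ | ⟨j, y⟩
        · have h6 : (G n).Adj (.inl (i, a)) (.inr (false, true)) := hu1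
          have h7 := hw (.inl (i, a))
          have h8 := ncard_pos_of (fun w => c w = c (.inl (i, a))) _ _ h6 hu2.symm
          rw [hβ, zero_mul] at h7
          have h9 : (0 : ℝ) <
            ({w | (G n).Adj (.inl (i, a)) w ∧ c w = c (.inl (i, a))}.ncard : ℝ) := by
            exact_mod_cast h8
          linarith
        · exact not_adj_rr _ _ hu1
    have hk2 : k = 2 := by exact_mod_cast hk
    subst hk2
    have key : ∀ (v : W n) (i : Fin 2), 2 * {u | (G n).Adj v u ∧ c u = i}.ncard =
        {u | (G n).Adj v u}.ncard := by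
      intro v i
      have h2 : (2 : ℝ) * ({u | (G n).Adj v u ∧ c u = i}.ncard : ℝ) =
          ({u | (G n).Adj v u}.ncard : ℝ) := by
        by_cases hi : c v = i
        · have h3 := hw v
          rw [hi, hα] at h3
          rw [h3]; push_cast; ring
        · rw [ho v i hi, hα]; ring
      exact_mod_cast h2
    refine ⟨fun u => decide (c u = 1), ⟨?_, ?_, ?_⟩, ?_⟩
    · intro j
      cases j
      · intro h2
        apply hpq
        have h7 : ∀ a b : Fin 2, decide (a = 1) = decide (b = 1) → a = b := by decide
        exact h7 _ _ h2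
      · intro h2
        have h7 : ∀ a b : Fin 2, decide (a = 1) = decide (b = 1) → a = b := by decide
        have h8 := h7 _ _ h2
        have h9 := key (.inl (2, z)) (c (.inr (true, true)))
        rw [cnt_C, deg_C, h8, if_pos rfl] at h9
        omega
    · have h2 := key (.inr (false, false)) 1
      rw [ncard_r', deg_r] at h2
      simp only [Bool.false_eq_true, if_false] at h2
      simp only [decide_eq_true_eq]
      omega
    · have h2 := key (.inr (true, false)) 1
      rw [ncard_r', deg_r] at h2
      simp only [if_true] at h2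
      simp only [decide_eq_true_eq]
      omega
    · intro x y
      have h7 : ∀ a b : Fin 2, a = b ↔ decide (a = 1) = decide (b = 1) := by decide
      exact h7 _ _

theorem setoid_ext {r r' : Setoid (W n)} (h : ∀ x y, r x y ↔ r' x y) : r = r' :=
  Setoid.ext h

/-- Every FAT partition is the partition of one of three kinds of maps to `Bool`. -/
theorem fat_cases (hn : 0 < n) {r : Setoid (W n)} (h : FATPartition (G n) r) :
    (∀ x y, r x y) ∨ r = ker side ∨ ∃ f : W n → Bool, Balanced f ∧ r = ker f := by
  obtain ⟨k, c, α, hc, hr⟩ := h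
  rcases classify hn hc with h1 | h1 | ⟨f, hf, h1⟩
  · exact Or.inl fun x y => (hr x y).2 (h1 x y)
  · exact Or.inr (Or.inl (setoid_ext fun x y => (hr x y).trans (h1 x y)))
  · exact Or.inr (Or.inr ⟨f, hf, setoid_ext fun x y => (hr x y).trans (h1 x y)⟩)

/-- A FAT partition into two classes is irreducible. -/
theorem irr_of_two (hn : 0 < n) {g : W n → Bool} (hg : FATPartition (G n) (ker g))
    {a b : W n} (hab : g a ≠ g b) : Irreducible (G n) (ker g) := by
  refine ⟨hg, fun r' hr' hle => ?_⟩
  have hf : ∃ f : W n → Bool, r' = ker f := by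
    rcases fat_cases hn hr' with h1 | h1 | ⟨f, -, h1⟩
    · exact absurd (hle a b (h1 a b)) hab
    · exact ⟨side, h1⟩
    · exact ⟨f, h1⟩
  obtain ⟨f, rfl⟩ := hf
  refine setoid_ext fun x y => ⟨hle x y, fun h => ?_⟩
  by_contra hxy
  have hall : ∀ w, g w = g x := by
    intro w
    have h1 : ∀ p q s : Bool, p ≠ q → (s = p ∨ s = q) := by decide
    rcases h1 (f x) (f y) (f w) hxy with h2 | h2
    · exact hle w x h2
    · exact (hle w y h2).trans h.symm
  exact hab ((hall a).trans (hall b).symm)

theorem side_irr (hn : 0 < n) : Irreducible (G n) (ker side) :=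
  irr_of_two hn fat_side (a := .inl (0, ⟨0, hn⟩)) (b := .inr (true, true)) (by simp [side])

theorem balanced_irr (hn : 0 < n) {f : W n → Bool} (hf : Balanced f) :
    Irreducible (G n) (ker f) :=
  irr_of_two hn (fat_of_half f hf.half) (hf.y false)

theorem irr_cases (hn : 0 < n) {r : Setoid (W n)} (h : Irreducible (G n) r) :
    r = ker side ∨ ∃ f : W n → Bool, Balanced f ∧ r = ker f := by
  rcases fat_cases hn h.1 with h1 | h1 | h1
  · have h2 := h.2 (ker side) fat_side fun x y _ => h1 x y
    exact Or.inl h2.symm
  · exact Or.inl h1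
  · exact Or.inr h1

/-! ### The standard balanced colourings -/

/-- The balanced colouring with `t` vertices of `B` of colour `true`. -/
def std (n t : ℕ) : W n → Bool
  | .inl (i, a) => if i = 1 then decide (a.val < t) else !decide (a.val < t)
  | .inr (_, y) => y

theorem card_lt (n t : ℕ) (h : t ≤ n) : (univ.filter fun a : Fin n => a.val < t).card = t := by
  have h1 : ((univ.filter fun a : Fin n => a.val < t).map Fin.valEmbedding) =
      Finset.range t := by
    ext a
    simp only [Finset.mem_map, Finset.mem_filter, Finset.mem_univ, true_and, Finset.mem_range,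
      Fin.valEmbedding_apply]
    constructor
    · rintro ⟨x, hx, rfl⟩
      exact hx
    · intro ha
      exact ⟨⟨a, by omega⟩, ha, rfl⟩
  rw [← Finset.card_map Fin.valEmbedding, h1, Finset.card_range]

theorem card_ge (n t : ℕ) (h : t ≤ n) :
    (univ.filter fun a : Fin n => ¬ a.val < t).card = n - t := by
  have h1 := Finset.card_filter_add_card_filter_not (s := (univ : Finset (Fin n)))
    (fun a : Fin n => a.val < t)
  rw [card_lt n t h, Finset.card_univ, Fintype.card_fin] at h1
  omega

theorem std_cnt (n t : ℕ) (h : t ≤ n) (i : Fin 3) :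
    cnt (fun u => std n t u = true) i = if i = 1 then t else n - t := by
  unfold cnt
  by_cases hi : i = 1
  · rw [if_pos hi]
    refine Eq.trans ?_ (card_lt n t h)
    congr 1
    ext a
    simp [std, hi]
  · rw [if_neg hi]
    refine Eq.trans ?_ (card_ge n t h)
    congr 1
    ext a
    simp [std, hi]

theorem std_balanced (n t : ℕ) (h : t ≤ n) : Balanced (std n t) where
  y j := by simp [std]
  a := by
    rw [std_cnt n t h, std_cnt n t h, if_neg (by decide), if_pos rfl]; omega
  c := by
    rw [std_cnt n t h, std_cnt n t h, if_pos rfl, if_neg (by decide)]; omega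

/-! ### Automorphisms -/

/-- An automorphism permuting the vertices in every block. -/
def blockAut (σ : Fin 3 → Equiv.Perm (Fin n)) (τ : Bool → Equiv.Perm Bool) : G n ≃g G n where
  toEquiv := Equiv.sumCongr (Equiv.prodShear (Equiv.refl _) σ) (Equiv.prodShear (Equiv.refl _) τ)
  map_rel_iff' := by
    rintro (⟨i, a⟩ | ⟨j, y⟩) (⟨i', a'⟩ | ⟨j', y'⟩) <;> exact Iff.rfl

theorem exists_perm {β : Type} [Fintype β] (f g : β → Bool)
    (h : (univ.filter fun a => f a = true).card = (univ.filter fun a => g a = true).card) :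
    ∃ σ : Equiv.Perm β, ∀ a, g (σ a) = f a := by
  have h' : (univ.filter fun a => ¬ f a = true).card = (univ.filter fun a => ¬ g a = true).card := by
    have h1 := Finset.card_filter_add_card_filter_not (s := (univ : Finset β))
      (fun a => f a = true)
    have h2 := Finset.card_filter_add_card_filter_not (s := (univ : Finset β))
      (fun a => g a = true)
    omega
  have e : ∀ b : Bool, Nonempty ({a // f a = b} ≃ {a // g a = b}) := by
    intro b
    rw [← Fintype.card_eq, Fintype.card_subtype, Fintype.card_subtype]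
    cases b
    · simpa using h'
    · exact h
  exact ⟨Equiv.ofFiberEquiv fun b => (e b).some, fun a => Equiv.ofFiberEquiv_map _ a⟩

theorem exists_aut {f g : W n → Bool} (hf : Balanced f) (hg : Balanced g)
    (h : cnt (fun u => f u = true) 1 = cnt (fun u => g u = true) 1) :
    ∃ φ : G n ≃g G n, ∀ x, g (φ x) = f x := by
  have hi : ∀ i : Fin 3, cnt (fun u => f u = true) i = cnt (fun u => g u = true) i := by
    have h1 := hf.a
    have h2 := hg.a
    have h3 := hf.c
    have h4 := hg.c
    intro i
    fin_cases i
    · show cnt (fun u => f u = true) 0 = cnt (fun u => g u = true) 0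
      omega
    · exact h
    · show cnt (fun u => f u = true) 2 = cnt (fun u => g u = true) 2
      omega
  have h5 : ∀ i : Fin 3, ∃ σ : Equiv.Perm (Fin n), ∀ a, g (.inl (i, σ a)) = f (.inl (i, a)) :=
    fun i => exists_perm (fun a => f (.inl (i, a))) (fun a => g (.inl (i, a))) (hi i)
  have h6 : ∀ j : Bool, ∃ τ : Equiv.Perm Bool, ∀ y, g (.inr (j, τ y)) = f (.inr (j, y)) := by
    intro j
    refine exists_perm (fun y => f (.inr (j, y))) (fun y => g (.inr (j, y))) ?_
    have h7 := hf.y j
    have h8 := hg.y j
    have h9 : ∀ q : Bool → Bool, q false ≠ q true → (univ.filter fun a => q a = true).card = 1 := by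
      decide
    rw [h9 _ h7, h9 _ h8]
  choose σ hσ using h5
  choose τ hτ using h6
  refine ⟨blockAut σ τ, ?_⟩
  rintro (⟨i, a⟩ | ⟨j, y⟩)
  · exact hσ i a
  · exact hτ j y

/-! ### Invariants -/

theorem deg_aut (φ : G n ≃g G n) (v : W n) :
    {u | (G n).Adj (φ v) u}.ncard = {u | (G n).Adj v u}.ncard := by
  have h : {u | (G n).Adj (φ v) u} = φ '' {u | (G n).Adj v u} := by
    ext u
    constructor
    · intro hu
      refine ⟨φ.symm u, ?_, RelIso.apply_symm_apply φ u⟩
      have h1 : (G n).Adj (φ v) (φ (φ.symm u)) := by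
        rw [RelIso.apply_symm_apply]; exact hu
      exact φ.map_adj_iff.1 h1
    · rintro ⟨w, hw, rfl⟩
      exact φ.map_adj_iff.2 hw
  rw [h, Set.ncard_image_of_injective _ φ.injective]

/-- The number of related pairs of vertices of degree 4. -/
noncomputable def inv (r : Setoid (W n)) : ℕ :=
  {p : W n × W n | {u | (G n).Adj p.1 u}.ncard = 4 ∧ {u | (G n).Adj p.2 u}.ncard = 4 ∧
    r p.1 p.2}.ncard

theorem inv_aut {r r' : Setoid (W n)} (φ : G n ≃g G n) (h : ∀ x y, r x y ↔ r' (φ x) (φ y)) :
    inv r = inv r' := by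
  unfold inv
  have h1 : {p : W n × W n | {u | (G n).Adj p.1 u}.ncard = 4 ∧ {u | (G n).Adj p.2 u}.ncard = 4 ∧
      r' p.1 p.2} = (fun p : W n × W n => (φ p.1, φ p.2)) ''
      {p : W n × W n | {u | (G n).Adj p.1 u}.ncard = 4 ∧ {u | (G n).Adj p.2 u}.ncard = 4 ∧
      r p.1 p.2} := by
    ext ⟨x, y⟩
    constructor
    · rintro ⟨hx, hy, hxy⟩
      refine ⟨(φ.symm x, φ.symm y), ⟨?_, ?_, ?_⟩, ?_⟩
      · rw [← deg_aut φ, RelIso.apply_symm_apply]; exact hx
      · rw [← deg_aut φ, RelIso.apply_symm_apply]; exact hy
      · rw [h, RelIso.apply_symm_apply, RelIso.apply_symm_apply]; exact hxy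
      · simp only [RelIso.apply_symm_apply]
    · rintro ⟨⟨x', y'⟩, ⟨hx, hy, hxy⟩, he⟩
      obtain ⟨rfl, rfl⟩ := Prod.mk.inj he
      exact ⟨(deg_aut φ x').trans hx, (deg_aut φ y').trans hy, (h x' y').1 hxy⟩
  rw [h1, Set.ncard_image_of_injective]
  rintro ⟨x, y⟩ ⟨x', y'⟩ he
  obtain ⟨h2, h3⟩ := Prod.mk.inj he
  exact Prod.ext (φ.injective h2) (φ.injective h3)

theorem deg_four (hn : n ≠ 2) (v : W n) :
    {u | (G n).Adj v u}.ncard = 4 ↔ ∃ b : Fin n, v = .inl (1, b) := by
  rcases v with ⟨i, a⟩ | ⟨j, y⟩
  · fin_cases i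
    · show {u | (G n).Adj (.inl (0, a)) u}.ncard = 4 ↔ _
      rw [deg_A]
      refine ⟨fun h => absurd h (by norm_num), ?_⟩
      rintro ⟨b, hb⟩
      exact absurd (Prod.mk.inj (Sum.inl.inj hb)).1 (by decide)
    · show {u | (G n).Adj (.inl (1, a)) u}.ncard = 4 ↔ _
      rw [deg_B]
      exact ⟨fun _ => ⟨a, rfl⟩, fun _ => rfl⟩
    · show {u | (G n).Adj (.inl (2, a)) u}.ncard = 4 ↔ _
      rw [deg_C]
      refine ⟨fun h => absurd h (by norm_num), ?_⟩
      rintro ⟨b, hb⟩
      exact absurd (Prod.mk.inj (Sum.inl.inj hb)).1 (by decide)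
  · rw [deg_r]
    refine ⟨fun h => absurd h (by omega), ?_⟩
    rintro ⟨b, hb⟩
    exact absurd hb (by simp)

theorem inv_ker (hn : n ≠ 2) (f : W n → Bool) :
    inv (ker f) = (cnt (fun u => f u = true) 1) ^ 2 + (cnt (fun u => f u = false) 1) ^ 2 := by
  unfold inv
  have h1 : {p : W n × W n | {u | (G n).Adj p.1 u}.ncard = 4 ∧ {u | (G n).Adj p.2 u}.ncard = 4 ∧
      (ker f) p.1 p.2} = (fun q : Fin n × Fin n => ((.inl (1, q.1) : W n), (.inl (1, q.2) : W n))) ''
      (((univ.filter fun a : Fin n => f (.inl (1, a)) = true) ×ˢ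
        (univ.filter fun a : Fin n => f (.inl (1, a)) = true) ∪
       (univ.filter fun a : Fin n => f (.inl (1, a)) = false) ×ˢ
        (univ.filter fun a : Fin n => f (.inl (1, a)) = false) : Finset (Fin n × Fin n)) :
          Set (Fin n × Fin n)) := by
    ext ⟨x, y⟩
    constructor
    · rintro ⟨hx, hy, hxy⟩
      obtain ⟨a, ha⟩ := (deg_four hn _).1 hx
      obtain ⟨b, hb⟩ := (deg_four hn _).1 hy
      simp only at ha hb hxy
      subst ha hb
      refine ⟨(a, b), ?_, rfl⟩
      have h2 : f (.inl (1, a)) = f (.inl (1, b)) := hxy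
      rw [Finset.mem_coe, Finset.mem_union, Finset.mem_product, Finset.mem_product]
      simp only [Finset.mem_filter, Finset.mem_univ, true_and]
      rw [← h2]
      cases f (.inl (1, a)) <;> simp
    · rintro ⟨⟨a, b⟩, hab, he⟩
      obtain ⟨rfl, rfl⟩ := Prod.mk.inj he
      refine ⟨(deg_four hn _).2 ⟨a, rfl⟩, (deg_four hn _).2 ⟨b, rfl⟩, ?_⟩
      rw [Finset.mem_coe, Finset.mem_union, Finset.mem_product, Finset.mem_product] at hab
      simp only [Finset.mem_filter, Finset.mem_univ, true_and] at hab
      show f (.inl (1, a)) = f (.inl (1, b))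
      rcases hab with ⟨h2, h3⟩ | ⟨h2, h3⟩ <;> rw [h2, h3]
  rw [h1, Set.ncard_image_of_injective, Set.ncard_coe_finset, Finset.card_union_of_disjoint,
    Finset.card_product, Finset.card_product]
  · unfold cnt; ring
  · rw [Finset.disjoint_left]
    rintro ⟨a, b⟩ h2 h3
    simp only [Finset.mem_product, Finset.mem_filter, Finset.mem_univ, true_and] at h2 h3
    rw [h2.1] at h3
    exact absurd h3.1 (by simp)
  · rintro ⟨a, b⟩ ⟨a', b'⟩ he
    obtain ⟨h2, h3⟩ := Prod.mk.inj he
    exact Prod.ext (Prod.mk.inj (Sum.inl.inj h2)).2 (Prod.mk.inj (Sum.inl.inj h3)).2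

/-! ### The count -/

/-- The representatives of the orbits. -/
def rep (m : ℕ) : Option (Fin (m + 1)) → {r : Setoid (W (2 * m + 1)) // Irreducible (G (2 * m + 1)) r}
  | none => ⟨ker side, side_irr (by omega)⟩
  | some t => ⟨ker (std (2 * m + 1) t), balanced_irr (by omega)
      (std_balanced _ _ (by have := t.2; omega))⟩

theorem side_not_equiv (hn : 0 < n) {f : W n → Bool} (hf : Balanced f) (φ : G n ≃g G n) :
    ¬ ∀ x y, (ker side) x y ↔ (ker f) (φ x) (φ y) := by
  intro h
  have hB : (G n).Adj (.inl (0, ⟨0, hn⟩)) (.inr (false, false)) := rfl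
  have hB' : (G n).Adj (.inl (0, ⟨0, hn⟩)) (.inr (false, true)) := rfl
  have h1 : ∀ u v : W n, (G n).Adj u v → f u ≠ f v := by
    intro u v huv he
    have h2 := (h (φ.symm u) (φ.symm v)).2 (by
      rw [RelIso.apply_symm_apply, RelIso.apply_symm_apply]; exact he)
    have h3 : (G n).Adj (φ.symm u) (φ.symm v) := φ.symm.map_adj_iff.2 huv
    have h4 := adj_side h3
    have h5 : side (φ.symm u) = side (φ.symm v) := h2
    rw [h5] at h4
    revert h4
    cases side (φ.symm v) <;> simp
  have h2 := h1 _ _ hB
  have h3 := h1 _ _ hB'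
  have h4 := hf.y false
  have h5 : ∀ p q s : Bool, p ≠ q → p ≠ s → q ≠ s → False := by decide
  exact h5 _ _ _ h2 h3 h4

theorem rep_injective (m : ℕ) :
    Function.Injective fun o => (Quotient.mk (autSetoid (G (2 * m + 1))) (rep m o)) := by
  intro o o' h
  have h' := Quotient.exact h
  have hn : 0 < 2 * m + 1 := by omega
  rcases o with _ | t <;> rcases o' with _ | t'
  · rfl
  · obtain ⟨φ, hφ⟩ := h'
    exact absurd hφ (side_not_equiv hn (std_balanced _ _ (by have := t'.2; omega)) φ)
  · obtain ⟨φ, hφ⟩ := (autSetoid _).symm h'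
    exact absurd hφ (side_not_equiv hn (std_balanced _ _ (by have := t.2; omega)) φ)
  · obtain ⟨φ, hφ⟩ := h'
    have h1 := inv_aut φ hφ
    have ht := t.2
    have ht' := t'.2
    change inv (ker (std (2 * m + 1) t)) = inv (ker (std (2 * m + 1) t')) at h1
    rw [inv_ker (by omega), inv_ker (by omega)] at h1
    have h2 := cnt_not (std (2 * m + 1) t) 1
    have h3 := cnt_not (std (2 * m + 1) t') 1
    rw [std_cnt _ _ (by omega), if_pos rfl] at h1 h2
    rw [std_cnt _ _ (by omega), if_pos rfl] at h1 h3
    generalize cnt (fun u => std (2 * m + 1) t u = false) 1 = p at *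
    generalize cnt (fun u => std (2 * m + 1) t' u = false) 1 = q at *
    have h4 : (t : ℕ) = t' := by
      have h5 : (p : ℤ) = 2 * m + 1 - t := by omega
      have h6 : (q : ℤ) = 2 * m + 1 - t' := by omega
      have h7 : ((t : ℕ) : ℤ) ^ 2 + (p : ℤ) ^ 2 = ((t' : ℕ) : ℤ) ^ 2 + (q : ℤ) ^ 2 := by
        exact_mod_cast h1
      rw [h5, h6] at h7
      have h8 : (((t : ℕ) : ℤ) - (t' : ℕ)) * (2 * m + 1 - (t : ℕ) - (t' : ℕ)) = 0 := by
        linarith [h7, sq ((t : ℕ) : ℤ), sq ((t' : ℕ) : ℤ)]
      rcases mul_eq_zero.1 h8 with h9 | h9 <;> omega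
    rw [Fin.ext h4]

theorem rep_surjective (m : ℕ) :
    Function.Surjective fun o => (Quotient.mk (autSetoid (G (2 * m + 1))) (rep m o)) := by
  intro q
  obtain ⟨⟨r, hr⟩, rfl⟩ := Quotient.exists_rep q
  have hn : 0 < 2 * m + 1 := by omega
  rcases irr_cases hn hr with rfl | ⟨f, hf, rfl⟩
  · exact ⟨none, rfl⟩
  · have h1 := cnt_not f 1
    have key : ∀ f : W (2 * m + 1) → Bool, Balanced f → cnt (fun u => f u = true) 1 ≤ m →
        ∀ hr : Irreducible (G (2 * m + 1)) (ker f),
        ∃ o, Quotient.mk (autSetoid (G (2 * m + 1))) (rep m o) = Quotient.mk _ ⟨ker f, hr⟩ := by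
      intro f hf hle hr
      refine ⟨some ⟨cnt (fun u => f u = true) 1, by omega⟩, Quotient.sound ?_⟩
      have hb := std_balanced (2 * m + 1) (cnt (fun u => f u = true) 1) (by omega)
      obtain ⟨φ, hφ⟩ := exists_aut hb hf (by rw [std_cnt _ _ (by omega), if_pos rfl])
      refine ⟨φ, fun x y => ?_⟩
      show std _ _ x = std _ _ y ↔ f (φ x) = f (φ y)
      rw [hφ, hφ]
    by_cases hle : cnt (fun u => f u = true) 1 ≤ m
    · exact key f hf hle hr
    · have hf' : Balanced fun u => !f u := by
        have h0 := cnt_not f 0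
        have h2 := cnt_not f 2
        have ha := hf.a
        have hc := hf.c
        refine ⟨fun j h => hf.y j ?_, ?_, ?_⟩
        · have := congrArg not h
          simpa using this
        · simp only [Bool.not_eq_true']
          omega
        · simp only [Bool.not_eq_true']
          omega
      have hk : ker f = ker fun u => !f u := by
        refine setoid_ext fun x y => ?_
        show f x = f y ↔ (!f x) = !f y
        cases f x <;> cases f y <;> simp
      have hr' : Irreducible (G (2 * m + 1)) (ker fun u => !f u) := hk ▸ hr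
      obtain ⟨o, ho⟩ := key _ hf' (by simp only [Bool.not_eq_true']; omega) hr'
      refine ⟨o, ho.trans ?_⟩
      congr 1
      exact Subtype.ext hk.symm

theorem count_G (m : ℕ) : irreducibleCount (G (2 * m + 1)) = m + 2 := by
  unfold irreducibleCount
  rw [← Nat.card_eq_of_bijective _ ⟨rep_injective m, rep_surjective m⟩]
  simp

theorem connected_G (hn : 0 < n) : (G n).Connected := by
  have h : ∀ v, (G n).Reachable (.inl (1, ⟨0, hn⟩)) v :=
    reach ⟨0, hn⟩ (SimpleGraph.Reachable.refl _) fun u v huv hu => hu.trans huv.reachable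
  have : Nonempty (W n) := ⟨.inr (true, true)⟩
  exact ⟨fun u v => (h u).symm.trans (h v)⟩

/-! ### One edge -/

theorem count_edge : irreducibleCount (⊤ : SimpleGraph Bool) = 1 := by
  have hbot : FATPartition (⊤ : SimpleGraph Bool) ⊥ := by
    refine ⟨2, fun b => if b = true then 1 else 0, 1, ⟨by norm_num, by norm_num, ?_, ?_⟩, ?_⟩
    · intro v i hi
      have h1 : {u | (⊤ : SimpleGraph Bool).Adj v u ∧ (if u = true then (1 : Fin 2) else 0) = i} =
          {u | (⊤ : SimpleGraph Bool).Adj v u} := by
        ext u
        simp only [Set.mem_ofPred_eq, SimpleGraph.top_adj]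
        refine ⟨fun h => h.1, fun h => ⟨h, ?_⟩⟩
        have hi' : (if v = true then (1 : Fin 2) else 0) ≠ i := hi
        revert hi' h
        cases v <;> cases u <;> fin_cases i <;> simp
      rw [h1, one_mul]
    · intro v
      have h1 : {u | (⊤ : SimpleGraph Bool).Adj v u ∧ (if u = true then (1 : Fin 2) else 0) =
          if v = true then (1 : Fin 2) else 0} = ∅ := by
        ext u
        simp only [Set.mem_ofPred_eq, SimpleGraph.top_adj, Set.mem_empty_iff_false, iff_false,
          not_and]
        cases v <;> cases u <;> simp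
      rw [h1]; norm_num
    · intro x y
      show x = y ↔ _
      cases x <;> cases y <;> simp
  have hirr : ∀ r : Setoid Bool, Irreducible (⊤ : SimpleGraph Bool) r → r = ⊥ := by
    intro r hr
    refine (hr.2 ⊥ hbot fun x y h => ?_).symm
    have h' : x = y := h
    rw [h']
  have hbi : Irreducible (⊤ : SimpleGraph Bool) ⊥ := by
    refine ⟨hbot, fun r' _ hle => le_antisymm (fun x y h => hle x y h) bot_le⟩
  unfold irreducibleCount
  rw [Nat.card_eq_one_iff_unique]
  refine ⟨⟨fun a b => ?_⟩, ⟨Quotient.mk _ ⟨⊥, hbi⟩⟩⟩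
  obtain ⟨⟨r, hr⟩, rfl⟩ := Quotient.exists_rep a
  obtain ⟨⟨s, hs⟩, rfl⟩ := Quotient.exists_rep b
  congr 1
  exact Subtype.ext ((hirr r hr).trans (hirr s hs).symm)

/-- For every positive integer `b` there is a finite connected simple graph with at least two vertices
which has exactly `b` irreducible FAT colourings. -/
theorem result (b : ℕ) (hb : 1 ≤ b) :
    ∃ (V : Type) (_ : Fintype V) (H : SimpleGraph V),
      H.Connected ∧ 2 ≤ Fintype.card V ∧ irreducibleCount H = b := by
  rcases Nat.lt_or_ge b 2 with h | h
  · have hb1 : b = 1 := by omega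
    subst hb1
    exact ⟨Bool, inferInstance, ⊤, SimpleGraph.connected_top, by simp, count_edge⟩
  · obtain ⟨m, rfl⟩ : ∃ m, b = m + 2 := ⟨b - 2, by omega⟩
    refine ⟨W (2 * m + 1), inferInstance, G (2 * m + 1), connected_G (by omega), ?_, count_G m⟩
    simp only [Fintype.card_sum, Fintype.card_prod, Fintype.card_fin, Fintype.card_bool]
    omega

end Pool.Agent.Results.MP_48b99b_co.EveryCount
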